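import Mathlib
import Pool.Agent.R957.Mmpp.Defs
import Pool.Agent.NH98.MmppMoments

/-! Q2 of MP_af8c33_pr: the squared coefficient of variation of the inter-event time of an
MMPP is at least one, for every order. -/

set_option autoImplicit false

namespace Pool.Agent.Results.MP_af8c33_pr.CvAtLeastOne

open Matrix Pool.R957.Mmpp MeasureTheory ProbabilityTheory

/-- For every MMPP `(C, D)` of every order with stationary vector `π`, with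
`α = π D / (π D 1)`: `C` is nonsingular, `(π C 1)(π C⁻¹ 1) ≥ 1`, there is a law `μ` on the line
with tail `α e^{Ct} 1` at every `t ≥ 0`, and every such law has a finite second moment, a
positive mean, `c² + 1 = 2 (π C 1)(π C⁻¹ 1)`, and `c² ≥ 1`. -/
theorem result {p : ℕ} (M : MMPP p) (piv : Fin p → ℝ) (h : M.IsStat piv) :
    IsUnit M.C.det ∧
    1 ≤ (piv ⬝ᵥ (M.C *ᵥ 1)) * (piv ⬝ᵥ (M.C⁻¹ *ᵥ 1)) ∧
    (∃ μ : Measure ℝ, IsProbabilityMeasure μ ∧ ∀ t, 0 ≤ t → μ.real (Set.Ioi t) =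
      ((piv ⬝ᵥ (M.D *ᵥ 1))⁻¹ • (piv ᵥ* M.D)) ⬝ᵥ (NormedSpace.exp (t • M.C) *ᵥ 1)) ∧
    ∀ μ : Measure ℝ, IsProbabilityMeasure μ → (∀ t, 0 ≤ t → μ.real (Set.Ioi t) =
      ((piv ⬝ᵥ (M.D *ᵥ 1))⁻¹ • (piv ᵥ* M.D)) ⬝ᵥ (NormedSpace.exp (t • M.C) *ᵥ 1)) →
      MemLp id 2 μ ∧ 0 < ∫ x, x ∂μ ∧
      variance id μ / (∫ x, x ∂μ) ^ 2 + 1 =
        2 * ((piv ⬝ᵥ (M.C *ᵥ 1)) * (piv ⬝ᵥ (M.C⁻¹ *ᵥ 1))) ∧
      1 ≤ variance id μ / (∫ x, x ∂μ) ^ 2 := by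
  refine ⟨Pool.Agent.NH98.Mmpp.C_det M piv h, Pool.Agent.NH98.Mmpp.main_ineq M piv h,
    Pool.Agent.NH98.Mmpp.exists_law M piv h, ?_⟩
  intro μ hμ ht
  exact Pool.Agent.NH98.Mmpp.final M piv h μ ht

end Pool.Agent.Results.MP_af8c33_pr.CvAtLeastOne
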